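import Mathlib
import Pool.Agent.Lib.MP_bdf388_an.Defs
import Pool.Agent.Lib.MP_bdf388_an.Ph.Defs
import Pool.Agent.Lib.MP_bdf388_an.Ph.Final
import Pool.Agent.Lib.MP_bdf388_an.Ph.Eval

set_option autoImplicit false

open Pool.Agent.Lib.MP_bdf388_an
open scoped Real

/-- The order of the orthowidth of `W^r_{1,α}` in `L_∞` for every phase vector `α`, with the
values of the exponent when all phases are equal. The class `W^r_1` is the case `α j = r`. -/
theorem Pool.Agent.Results.MP_bdf388_an.PhaseOrder.result (d : ℕ) (hd : 1 ≤ d) (r : ℝ)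
    (hr : 1 < r) (α : Fin d → ℝ) :
    (∃ c₁ c₂ : ℝ, 0 < c₁ ∧ 0 < c₂ ∧ ∀ m : ℕ, 2 ≤ m →
      ENNReal.ofReal (c₁ * ((m : ℝ) ^ (1 - r) *
          Real.log m ^ (((d : ℝ) - 1) * r - (phaseGain α : ℝ)))) ≤
        orthowidth d (phaseClass d r α 1) ⊤ m ∧
      orthowidth d (phaseClass d r α 1) ⊤ m ≤
        ENNReal.ofReal (c₂ * ((m : ℝ) ^ (1 - r) *
          Real.log m ^ (((d : ℝ) - 1) * r - (phaseGain α : ℝ))))) ∧
    ∀ a : ℝ, (∀ j, α j = a) →
      phaseGain α = logGain d a ∧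
      (Real.cos (π * a) = -1 → phaseGain α = d - 1) ∧
      (Real.cos (π * a) ≠ -1 → 2 * phaseGain α ≤ d ∧
        (phaseGain α = 0 ∨ (phaseGain α : ℝ) * π < d * Real.arccos (Real.cos (π * a)))) ∧
      ∀ k : ℕ, 2 ≤ k → Real.cos (π * a) < Real.cos (π / k) → d / k ≤ phaseGain α := by
  refine ⟨?_, fun a ha => ?_⟩
  · obtain ⟨c₁, h1, h2⟩ := Ph.order_lower hd hr α
    obtain ⟨c₂, h3, h4⟩ := Ph.order_upper hd hr α
    refine ⟨c₁, c₂, h1, h3, fun m hm => ?_⟩
    have h5 := h2 m hm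
    have h6 := h4 m hm
    rw [Nat.cast_sub hd, Nat.cast_one, ← Ph.orthowidth_eq] at h5 h6
    exact ⟨h5, h6⟩
  · obtain rfl : α = fun _ => a := funext ha
    rw [Ph.phaseGain_const]
    refine ⟨rfl, logGain_odd, fun h => ⟨two_mul_logGain_le h, ?_⟩,
      fun k hk h => Ph.div_le_logGain hk h⟩
    rcases Nat.eq_zero_or_pos (logGain d a) with h0 | h0
    · exact Or.inl h0
    · exact Or.inr (Ph.logGain_mul_pi_lt h h0)
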